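import Pool.Agent.Lib.MP_ef3f0f_gt.U.Z.Spec

set_option autoImplicit false

/-! MP_ef3f0f_gt, part 0, module inst: basic instances. -/

namespace Pool.Agent.MPEF.U

open MeasureTheory Topology
open scoped ENNReal Pointwise

variable (P H : Type) [Group P] [Group H] [TopologicalSpace P] [TopologicalSpace H]
  [IsTopologicalGroup P] [IsTopologicalGroup H] [LocallyCompactSpace P] [LocallyCompactSpace H]
  [T2Space P] [T2Space H] [SecondCountableTopology P] [SecondCountableTopology H]
  [MeasurableSpace P] [MeasurableSpace H] [BorelSpace P] [BorelSpace H]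

private theorem inst_count (D : Dat P H) (hD : D.Ok) : Countable D.Γ := by
  have h1 : (D.Γ : Set (P × H)) ⊆ ⋃ n : ℕ, {γ : P × H | γ ∈ D.Γ ∧ γ ∈ compactCovering (P × H) n} := by
    intro x hx
    have h2 : x ∈ ⋃ n : ℕ, compactCovering (P × H) n := by
      rw [iUnion_compactCovering]
      trivial
    obtain ⟨n, hn⟩ := Set.mem_iUnion.1 h2
    exact Set.mem_iUnion.2 ⟨n, hx, hn⟩
  have h3 : (D.Γ : Set (P × H)).Countable :=
    (Set.countable_iUnion fun n => (hD.disc _ (isCompact_compactCovering _ n)).countable).mono h1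
  exact h3.to_subtype

private theorem inst_inv (μ : Measure P) (ν : Measure H) [SFinite μ] [SFinite ν]
    (h1 : μ.IsInvInvariant) (h2 : ν.IsInvInvariant) : (μ.prod ν).IsInvInvariant := by
  constructor
  have h3 : (μ.prod ν).inv = (μ.inv).prod (ν.inv) := by
    unfold Measure.inv
    have h4 : (Inv.inv : P × H → P × H) = Prod.map Inv.inv Inv.inv := by
      funext x
      rfl
    rw [h4]
    exact (Measure.map_prod_map μ ν measurable_inv measurable_inv).symm
  rw [h3, h1.inv_eq_self, h2.inv_eq_self]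

theorem tinst : S_inst P H := by
  intro D hD
  have i1 := hD.haar₁
  have i2 := hD.haar₂
  have i3 := hD.right₁
  have i4 := hD.right₂
  have s1 : SigmaFinite D.μ₁ := inferInstance
  have s2 : SigmaFinite D.μ₂ := inferInstance
  have h1 : D.μ = D.μ₁.prod D.μ₂ := rfl
  rw [h1]
  refine ⟨s1, s2, inferInstance, inst_count P H D hD, inferInstance, inferInstance, inferInstance,
    inst_inv P H D.μ₁ D.μ₂ hD.inv₁ hD.inv₂, ?_⟩
  obtain ⟨K, hK, hK0⟩ := hD.χK
  refine ⟨K, hK, fun x => ?_⟩
  by_contra hcon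
  have h2 : ∑' γ : D.Γ, D.χ ((γ : P × H) * x) = 0 := by
    rw [ENNReal.tsum_eq_zero]
    intro γ
    refine hK0 _ (fun h => hcon ⟨(γ : P × H), γ.2, h⟩)
  rw [hD.χs x] at h2
  exact one_ne_zero h2

end Pool.Agent.MPEF.U
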