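import Pool.Agent.Lib.MP_ef3f0f_gt.U.Z.Spec

set_option autoImplicit false

namespace Pool.Agent.MPEF.U

open MeasureTheory Topology
open scoped ENNReal Pointwise

variable (P H : Type) [Group P] [Group H] [TopologicalSpace P] [TopologicalSpace H]
  [IsTopologicalGroup P] [IsTopologicalGroup H] [LocallyCompactSpace P] [LocallyCompactSpace H]
  [T2Space P] [T2Space H] [SecondCountableTopology P] [SecondCountableTopology H]
  [MeasurableSpace P] [MeasurableSpace H] [BorelSpace P] [BorelSpace H]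

theorem tHarn : S_inst P H → S_O P H → S_nu P H → S_Harn P H := by
  intro _ hO hnu D hD c
  obtain ⟨hOo, hO1, hOi, hOm, hOc, hOk, hOK⟩ := hO D hD
  obtain ⟨hm, hlsc, hpos, hsym, hint, hconv, ⟨C₀, hC₀, hbd⟩, hcpt⟩ := hnu D hD
  -- the minimum
  have hK : IsCompact (closure (D.O ^ (c + 1))) := hOk (c + 1)
  have hne : (closure (D.O ^ (c + 1))).Nonempty := ⟨1, subset_closure (hO1 (c + 1))⟩
  obtain ⟨a, ha, hmin⟩ := LowerSemicontinuousOn.exists_isMinOn hne hK
    ((hlsc (c + 2)).lowerSemicontinuousOn _)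
  have hε0 : D.nu (c + 2) a ≠ 0 := by
    have h1 := (hpos (c + 2) (by omega) a).mpr (hOc (c + 1) ha)
    exact h1.ne'
  have hεt : D.nu (c + 2) a ≠ ∞ := ne_top_of_le_ne_top hC₀ (hbd _ _)
  have hnu1 : D.nu 1 = D.ν := rfl
  set C : ℝ≥0∞ := C₀ * (D.nu (c + 2) a)⁻¹ with hCdef
  have hCt : C ≠ ∞ := ENNReal.mul_ne_top hC₀ (ENNReal.inv_ne_top.mpr hε0)
  have base : ∀ p q : H, q ∈ D.O ^ c → D.nu 1 p ≤ C * D.nu (c + 2) (p * q) := by
    intro p q hq
    by_cases hp : D.nu 1 p = 0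
    · rw [hp]
      exact zero_le
    · have hp' : p ∈ D.O ^ 1 := (hpos 1 le_rfl p).mp (pos_iff_ne_zero.mpr hp)
      have hpq : p * q ∈ closure (D.O ^ (c + 1)) := by
        apply subset_closure
        rw [pow_succ']
        rw [pow_one] at hp'
        exact Set.mul_mem_mul hp' hq
      have h1 : D.nu (c + 2) a ≤ D.nu (c + 2) (p * q) := hmin hpq
      calc D.nu 1 p ≤ C₀ := hbd 1 p
        _ = C * D.nu (c + 2) a := by
            rw [hCdef, mul_assoc, ENNReal.inv_mul_cancel hε0 hεt, mul_one]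
        _ ≤ C * D.nu (c + 2) (p * q) := by gcongr
  have right : ∀ n, 1 ≤ n → ∀ h q : H, q ∈ D.O ^ c →
      D.nu n h ≤ C * D.nu (n + c + 1) (h * q) := by
    intro n hn h q hq
    by_cases hn1 : n = 1
    · subst hn1
      have h1 : 1 + c + 1 = c + 2 := by ring
      rw [h1]
      exact base h q hq
    · have h1 : n - 1 + 1 = n := by omega
      have h2 : n - 1 + (c + 2) = n + c + 1 := by omega
      have e1 := hconv (n - 1) 1 (by omega) le_rfl h
      have e2 := hconv (n - 1) (c + 2) (by omega) (by omega) (h * q)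
      rw [h1] at e1
      rw [h2] at e2
      rw [← e1, ← e2, ← lintegral_const_mul' _ _ hCt]
      apply lintegral_mono
      intro p
      have h3 := base (p⁻¹ * h) q hq
      have h4 : p⁻¹ * (h * q) = p⁻¹ * h * q := by group
      change D.nu (n - 1) p * D.nu 1 (p⁻¹ * h) ≤ C * (D.nu (n - 1) p * D.nu (c + 2) (p⁻¹ * (h * q)))
      rw [h4]
      calc D.nu (n - 1) p * D.nu 1 (p⁻¹ * h) ≤
          D.nu (n - 1) p * (C * D.nu (c + 2) (p⁻¹ * h * q)) := by gcongr
        _ = C * (D.nu (n - 1) p * D.nu (c + 2) (p⁻¹ * h * q)) := by ring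
  refine ⟨C, hCt, ?_⟩
  intro n hn h q hq
  refine ⟨right n hn h q hq, ?_⟩
  have h1 := right n hn h⁻¹ q⁻¹ (hOi c q hq)
  have h2 : h⁻¹ * q⁻¹ = (q * h)⁻¹ := by group
  rw [h2, hsym, hsym] at h1
  exact h1

end Pool.Agent.MPEF.U
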