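import Pool.Agent.Lib.MP_ef3f0f_gt.U.Z.Spec

set_option autoImplicit false
set_option linter.unusedSectionVars false

/-! Upper bound for the number of edges. -/

namespace Pool.Agent.MPEF.U

open MeasureTheory Topology
open scoped ENNReal Pointwise

variable (P H : Type) [Group P] [Group H] [TopologicalSpace P] [TopologicalSpace H]
  [IsTopologicalGroup P] [IsTopologicalGroup H] [LocallyCompactSpace P] [LocallyCompactSpace H]
  [T2Space P] [T2Space H] [SecondCountableTopology P] [SecondCountableTopology H]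
  [MeasurableSpace P] [MeasurableSpace H] [BorelSpace P] [BorelSpace H]

private theorem Up_fin (D : Dat P H) (hD : D.Ok) (Q : Set (P × H)) (hQ : IsCompact Q) :
    {u : D.Γ | (u : P × H) ∈ Q}.Finite := by
  refine Set.Finite.of_finite_image (f := Subtype.val) ((hD.disc Q hQ).subset ?_)
    Subtype.val_injective.injOn
  rintro _ ⟨u, hu, rfl⟩
  exact ⟨u.2, hu⟩

/-- The number of edges with displacement in a compact set is bounded. -/
private theorem Up_count (D : Dat P H) (hD : D.Ok) (F : Set (P × H)) (hF : IsCompact F)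
    (Z : Set (P × H)) (hZ : IsCompact Z) : ∃ n : ℕ, ∀ (K : P × H → ℝ≥0∞) (C : ℝ≥0∞),
      (∀ g, K g ≤ C) → (∀ g, g ∉ Z → K g = 0) → ∀ x ∈ F, ∀ y, D.N K x y ≤ n * C := by
  classical
  have hQ : IsCompact ((F * Z) * (F * Z)⁻¹) := (hF.mul hZ).mul (hF.mul hZ).inv
  have hfin := Up_fin P H D hD _ hQ
  refine ⟨hfin.toFinset.card, fun K C hC hK0 x hx y => ?_⟩
  by_cases hex : ∃ u₀ : D.Γ, x⁻¹ * (u₀ : P × H) * y ∈ Z
  · obtain ⟨u₀, hu₀⟩ := hex
    have e0 : ∀ u : D.Γ, u ∉ hfin.toFinset.image (fun v => v * u₀) →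
        K (x⁻¹ * (u : P × H) * y) = 0 := by
      intro u hu
      refine hK0 _ fun hmem => hu ?_
      rw [Finset.mem_image]
      refine ⟨u * u₀⁻¹, ?_, inv_mul_cancel_right _ _⟩
      rw [Set.Finite.mem_toFinset]
      have h1 : (u : P × H) * y ∈ F * Z :=
        ⟨x, hx, x⁻¹ * (u : P × H) * y, hmem, by simp only [mul_assoc, mul_inv_cancel_left]⟩
      have h2 : (u₀ : P × H) * y ∈ F * Z :=
        ⟨x, hx, x⁻¹ * (u₀ : P × H) * y, hu₀, by simp only [mul_assoc, mul_inv_cancel_left]⟩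
      refine ⟨(u : P × H) * y, h1, ((u₀ : P × H) * y)⁻¹, Set.inv_mem_inv.2 h2, ?_⟩
      simp [mul_inv_rev, mul_assoc]
    unfold Dat.N
    rw [tsum_eq_sum e0]
    calc ∑ u ∈ hfin.toFinset.image (fun v => v * u₀), K (x⁻¹ * (u : P × H) * y)
        ≤ ∑ _u ∈ hfin.toFinset.image (fun v => v * u₀), C := Finset.sum_le_sum fun u _ => hC _
      _ = ((hfin.toFinset.image (fun v => v * u₀)).card : ℝ≥0∞) * C := by
          rw [Finset.sum_const, nsmul_eq_mul]
      _ ≤ (hfin.toFinset.card : ℝ≥0∞) * C := by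
          exact mul_le_mul_left (Nat.cast_le.2 Finset.card_image_le) _
  · push Not at hex
    unfold Dat.N
    have : ∀ u : D.Γ, K (x⁻¹ * (u : P × H) * y) = 0 := fun u => hK0 _ (hex u)
    rw [tsum_congr this, tsum_zero]
    exact zero_le

theorem tUp : S_inst P H → S_nu P H → S_mg P H → S_Up P H := by
  intro hin hnu hmg D hD k hk ⟨Ck, hCk, hk1⟩ ⟨Kk, hKk, hk0⟩
  obtain ⟨-, -, -, h4, -, h6, h7, -, F, hF, hcov⟩ := hin D hD
  obtain ⟨hm, -, -, -, hint, -, ⟨Cν, hCν, hν⟩, hsup⟩ := hnu D hD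
  obtain ⟨hinv, -, -, -, -, hcv, -⟩ := hmg D hD
  obtain ⟨Kν, hKν, hν0⟩ := hsup 1
  obtain ⟨m, hm1⟩ := Up_count P H D hD F hF (Kk ×ˢ Kν) (hKk.prod hKν)
  have hC : (m : ℝ≥0∞) * (Ck * Cν) ≠ ∞ :=
    ENNReal.mul_ne_top (ENNReal.natCast_ne_top _) (ENNReal.mul_ne_top hCk hCν)
  have hone : ∀ x y, D.N (D.tk k 1) x y ≤ m * (Ck * Cν) := by
    intro x y
    obtain ⟨γ, hγ, hx⟩ := hcov x
    rw [← hinv (D.tk k 1) x y ⟨γ, hγ⟩]
    refine hm1 _ _ (fun g => mul_le_mul' (hk1 _) (hν _ _)) (fun g hg => ?_) _ hx y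
    rw [Set.mem_prod, not_and_or] at hg
    rcases hg with hg | hg
    · rw [hk0 _ hg, zero_mul]
    · rw [hν0 _ hg, mul_zero]
  refine ⟨m * (Ck * Cν), hC, fun n x y => ?_⟩
  rcases Nat.lt_or_ge n 2 with hn | hn
  · have : D.tk k n = D.tk k 1 := by
      have h1 : n - 1 = 1 - 1 := by omega
      unfold Dat.tk Dat.nu
      rw [h1]
    rw [this]
    exact hone x y
  · obtain ⟨j, rfl⟩ : ∃ j, n = 1 + (j + 1) := ⟨n - 2, by omega⟩
    have e1 : D.N (D.tk k (1 + (j + 1))) x y =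
        ∫⁻ h, D.nu (j + 1) h * D.N (D.tk k 1) x (y * ((1 : P), h)) ∂D.μ₂ := by
      unfold Dat.N
      rw [tsum_congr fun u : D.Γ => (hcv k 1 (j + 1) le_rfl (by omega)
        (x⁻¹ * (u : P × H) * y)).symm]
      rw [← lintegral_tsum]
      · refine lintegral_congr fun h => ?_
        rw [← ENNReal.tsum_mul_left]
        exact tsum_congr fun u => by rw [mul_assoc (x⁻¹ * (u : P × H))]
      · intro u
        refine ((hm (j + 1)).mul ?_).aemeasurable
        have : (fun h : H => D.tk k 1 (x⁻¹ * (u : P × H) * y * ((1 : P), h))) =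
            fun h => k ((x⁻¹ * (u : P × H) * y).1 * 1) * D.nu 1 ((x⁻¹ * (u : P × H) * y).2 * h) :=
          rfl
        rw [this]
        exact ((hm 1).comp (measurable_const_mul _)).const_mul _
    rw [e1]
    calc ∫⁻ h, D.nu (j + 1) h * D.N (D.tk k 1) x (y * ((1 : P), h)) ∂D.μ₂
        ≤ ∫⁻ h, D.nu (j + 1) h * (m * (Ck * Cν)) ∂D.μ₂ := by
          refine lintegral_mono fun h => ?_
          gcongr
          exact hone _ _
      _ = m * (Ck * Cν) := by
          rw [lintegral_mul_const _ (hm (j + 1)), hint, one_mul]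

end Pool.Agent.MPEF.U
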