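import Pool.Agent.Lib.MP_ef3f0f_gt.U.Z.Spec

set_option autoImplicit false

/-! MP_ef3f0f_gt, part 0, module nu: the convolution powers. -/

namespace Pool.Agent.MPEF.U

open MeasureTheory Topology
open scoped ENNReal Pointwise

section one

variable {H : Type} [Group H] [TopologicalSpace H] [IsTopologicalGroup H]
  [SecondCountableTopology H] [MeasurableSpace H] [BorelSpace H]

/-- convolution -/
private noncomputable def nu_cv (μ : Measure H) (f g : H → ℝ≥0∞) : H → ℝ≥0∞ :=
  fun h => ∫⁻ q, f q * g (q⁻¹ * h) ∂μ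

private theorem nu_cv_meas (μ : Measure H) [SFinite μ] (f g : H → ℝ≥0∞) (hf : Measurable f)
    (hg : Measurable g) : Measurable (nu_cv μ f g) := by
  unfold nu_cv
  apply Measurable.lintegral_prod_right'
    (f := fun p : H × H => f p.2 * g (p.2⁻¹ * p.1))
  exact (hf.comp measurable_snd).mul (hg.comp ((measurable_inv.comp measurable_snd).mul measurable_fst))

private theorem nu_cv_assoc (μ : Measure H) [SFinite μ] [μ.IsMulLeftInvariant]
    (f g k : H → ℝ≥0∞) (hf : Measurable f) (hg : Measurable g) (hk : Measurable k) (h : H) :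
    nu_cv μ f (nu_cv μ g k) h = nu_cv μ (nu_cv μ f g) k h := by
  unfold nu_cv
  have e1 : ∀ q : H, f q * ∫⁻ p, g p * k (p⁻¹ * (q⁻¹ * h)) ∂μ =
      ∫⁻ p, f q * (g (q⁻¹ * p) * k (p⁻¹ * h)) ∂μ := by
    intro q
    have hm1 : Measurable fun p : H => g p * k (p⁻¹ * (q⁻¹ * h)) :=
      hg.mul (hk.comp (measurable_inv.mul_const _))
    rw [← lintegral_const_mul _ hm1]
    rw [← lintegral_mul_left_eq_self (fun p => f q * (g (q⁻¹ * p) * k (p⁻¹ * h))) q]
    apply lintegral_congr
    intro p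
    have h1 : q⁻¹ * (q * p) = p := by group
    have h2 : (q * p)⁻¹ * h = p⁻¹ * (q⁻¹ * h) := by group
    rw [h1, h2]
  have e2 : ∀ p : H, (∫⁻ q, f q * g (q⁻¹ * p) ∂μ) * k (p⁻¹ * h) =
      ∫⁻ q, f q * (g (q⁻¹ * p) * k (p⁻¹ * h)) ∂μ := by
    intro p
    have hm1 : Measurable fun q : H => f q * g (q⁻¹ * p) :=
      hf.mul (hg.comp (measurable_inv.mul_const _))
    rw [← lintegral_mul_const _ hm1]
    apply lintegral_congr
    intro q
    rw [mul_assoc]
  rw [lintegral_congr e1, lintegral_congr e2]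
  apply lintegral_lintegral_swap
  apply Measurable.aemeasurable
  have m1 : Measurable fun z : H × H => f z.1 := hf.comp measurable_fst
  have m2 : Measurable fun z : H × H => g (z.1⁻¹ * z.2) :=
    hg.comp ((measurable_inv.comp measurable_fst).mul measurable_snd)
  have m3 : Measurable fun z : H × H => k (z.2⁻¹ * h) :=
    hk.comp ((measurable_inv.comp measurable_snd).mul_const h)
  exact m1.mul (m2.mul m3)

private theorem nu_cv_inv (μ : Measure H) [μ.IsMulLeftInvariant]
    (f g : H → ℝ≥0∞) (h : H) :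
    nu_cv μ f g h⁻¹ = nu_cv μ (fun x => g x⁻¹) (fun x => f x⁻¹) h := by
  unfold nu_cv
  rw [← lintegral_mul_left_eq_self (fun q => f q * g (q⁻¹ * h⁻¹)) h⁻¹]
  apply lintegral_congr
  intro p
  have h1 : (h⁻¹ * p)⁻¹ * h⁻¹ = p⁻¹ := by group
  have h2 : (p⁻¹ * h)⁻¹ = h⁻¹ * p := by group
  show f (h⁻¹ * p) * g ((h⁻¹ * p)⁻¹ * h⁻¹) = g p⁻¹ * f (p⁻¹ * h)⁻¹
  rw [h1, h2, mul_comm]

private theorem nu_cv_int (μ : Measure H) [SFinite μ] [μ.IsMulLeftInvariant]
    (f g : H → ℝ≥0∞) (hf : Measurable f) (hg : Measurable g) :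
    ∫⁻ h, nu_cv μ f g h ∂μ = (∫⁻ h, f h ∂μ) * ∫⁻ h, g h ∂μ := by
  unfold nu_cv
  rw [lintegral_lintegral_swap]
  · have e1 : ∀ q : H, ∫⁻ h, f q * g (q⁻¹ * h) ∂μ = f q * ∫⁻ h, g h ∂μ := by
      intro q
      have hmq : Measurable fun h => g (q⁻¹ * h) := hg.comp (measurable_const_mul _)
      rw [lintegral_const_mul _ hmq, lintegral_mul_left_eq_self]
    rw [lintegral_congr e1, lintegral_mul_const _ hf]
  · apply Measurable.aemeasurable
    have m1 : Measurable fun z : H × H => f z.2 := hf.comp measurable_snd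
    have m2 : Measurable fun z : H × H => g (z.2⁻¹ * z.1) :=
      hg.comp ((measurable_inv.comp measurable_snd).mul measurable_fst)
    exact m1.mul m2

private theorem nu_cv_lsc (μ : Measure H) (f g : H → ℝ≥0∞) (hf : Measurable f)
    (hg : Measurable g) (hft : ∀ h, f h ≠ ∞) (hgl : LowerSemicontinuous g) :
    LowerSemicontinuous (nu_cv μ f g) := by
  rw [lowerSemicontinuous_iff_le_liminf]
  intro h₀
  unfold nu_cv
  have h1 : ∀ q : H, f q * g (q⁻¹ * h₀) ≤
      Filter.liminf (fun h => f q * g (q⁻¹ * h)) (nhds h₀) := by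
    intro q
    have hc : LowerSemicontinuous fun h => g (q⁻¹ * h) :=
      LowerSemicontinuous.comp hgl (continuous_const_mul q⁻¹)
    have hm : Monotone fun t : ℝ≥0∞ => f q * t := fun a b hab => by
      exact mul_le_mul_right hab _
    have hc2 : LowerSemicontinuous fun h => f q * g (q⁻¹ * h) :=
      (ENNReal.continuous_const_mul (hft q)).comp_lowerSemicontinuous hc hm
    exact lowerSemicontinuous_iff_le_liminf.1 hc2 h₀
  calc ∫⁻ q, f q * g (q⁻¹ * h₀) ∂μ
      ≤ ∫⁻ q, Filter.liminf (fun h => f q * g (q⁻¹ * h)) (nhds h₀) ∂μ := lintegral_mono h1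
    _ ≤ Filter.liminf (fun h => ∫⁻ q, f q * g (q⁻¹ * h) ∂μ) (nhds h₀) := by
        apply lintegral_liminf_le
        intro h
        exact hf.mul (hg.comp (measurable_inv.mul_const _))

private theorem nu_cv_pos (μ : Measure H) [μ.IsHaarMeasure] (f g : H → ℝ≥0∞) (hf : Measurable f)
    (hg : Measurable g) (A B : Set H) (hA : IsOpen A) (hB : IsOpen B) (hfA : ∀ h, 0 < f h ↔ h ∈ A)
    (hgB : ∀ h, 0 < g h ↔ h ∈ B) (h : H) : 0 < nu_cv μ f g h ↔ h ∈ A * B := by
  unfold nu_cv
  have hm : Measurable fun q => f q * g (q⁻¹ * h) :=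
    hf.mul (hg.comp (measurable_inv.mul_const _))
  rw [lintegral_pos_iff_support hm]
  have hs : Function.support (fun q => f q * g (q⁻¹ * h)) = A ∩ {q | q⁻¹ * h ∈ B} := by
    ext q
    rw [Function.mem_support, mul_ne_zero_iff, ← pos_iff_ne_zero, ← pos_iff_ne_zero, hfA, hgB]
    rfl
  rw [hs]
  have hopen : IsOpen (A ∩ {q | q⁻¹ * h ∈ B}) :=
    hA.inter (hB.preimage ((continuous_inv).mul continuous_const))
  rw [hopen.measure_pos_iff μ, Set.mem_mul]
  constructor
  · rintro ⟨q, hq, hq2⟩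
    exact ⟨q, hq, q⁻¹ * h, hq2, by group⟩
  · rintro ⟨a, ha, b, hb, rfl⟩
    refine ⟨a, ha, ?_⟩
    show a⁻¹ * (a * b) ∈ B
    have : a⁻¹ * (a * b) = b := by group
    rw [this]
    exact hb

end one

variable (P H : Type) [Group P] [Group H] [TopologicalSpace P] [TopologicalSpace H]
  [IsTopologicalGroup P] [IsTopologicalGroup H] [LocallyCompactSpace P] [LocallyCompactSpace H]
  [T2Space P] [T2Space H] [SecondCountableTopology P] [SecondCountableTopology H]
  [MeasurableSpace P] [MeasurableSpace H] [BorelSpace P] [BorelSpace H]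

private theorem nu_bdd (D : Dat P H) (hD : D.Ok) : ∃ C : ℝ≥0∞, C ≠ ∞ ∧ ∀ h, D.ν h ≤ C := by
  obtain ⟨K, hK, hK0⟩ := hD.νK
  rcases K.eq_empty_or_nonempty with he | hne
  · refine ⟨0, ENNReal.zero_ne_top, fun h => ?_⟩
    rw [hK0 h (by rw [he]; exact Set.notMem_empty h)]
  · obtain ⟨x, hx, hmax⟩ := hK.exists_isMaxOn hne hD.νc.continuousOn
    refine ⟨D.ν x, hD.νt x, fun h => ?_⟩
    by_cases hh : h ∈ K
    · exact hmax hh
    · rw [hK0 h hh]
      exact zero_le

theorem tnu : S_inst P H → S_O P H → S_nu P H := by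
  intro hinst hO D hD
  obtain ⟨s1, s2, -, -, -, -, -, -, -⟩ := hinst D hD
  obtain ⟨hOo, hO1, -, -, -, -, -⟩ := hO D hD
  have i2 := hD.haar₂
  have hνm : Measurable D.ν := hD.νc.measurable
  have hsucc : ∀ n, D.nuA (n + 1) = nu_cv D.μ₂ D.ν (D.nuA n) := fun n => rfl
  have hm : ∀ n, Measurable (D.nuA n) := by
    intro n
    induction n with
    | zero => exact hνm
    | succ n ih =>
      rw [hsucc n]
      exact nu_cv_meas D.μ₂ _ _ hνm ih
  have hl : ∀ n, LowerSemicontinuous (D.nuA n) := by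
    intro n
    induction n with
    | zero => exact hD.νc.lowerSemicontinuous
    | succ n ih =>
      rw [hsucc n]
      exact nu_cv_lsc D.μ₂ _ _ hνm (hm n) hD.νt ih
  have hpos0 : ∀ h, 0 < D.ν h ↔ h ∈ D.O := fun h => Iff.rfl
  have hO0 : IsOpen D.O := by
    have := hOo 1 le_rfl
    rwa [pow_one] at this
  have hpos : ∀ n, ∀ h, 0 < D.nuA n h ↔ h ∈ D.O ^ (n + 1) := by
    intro n
    induction n with
    | zero =>
      intro h
      rw [zero_add, pow_one]
      exact hpos0 h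
    | succ n ih =>
      intro h
      rw [hsucc n, pow_succ' D.O (n + 1)]
      exact nu_cv_pos D.μ₂ D.ν (D.nuA n) hνm (hm n) D.O (D.O ^ (n + 1)) hO0
        (hOo (n + 1) (Nat.le_add_left 1 n)) hpos0 ih h
  have hsg : ∀ n m, nu_cv D.μ₂ (D.nuA n) (D.nuA m) = D.nuA (n + m + 1) := by
    intro n m
    induction n with
    | zero =>
      rw [zero_add]
      rfl
    | succ n ih =>
      have h1 : n + 1 + m + 1 = (n + m + 1) + 1 := by ring
      rw [h1, hsucc (n + m + 1), ← ih, hsucc n]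
      funext h
      exact (nu_cv_assoc D.μ₂ _ _ _ hνm (hm n) (hm m) h).symm
  have hsym : ∀ n h, D.nuA n h⁻¹ = D.nuA n h := by
    intro n
    induction n with
    | zero => exact hD.νi
    | succ n ih =>
      intro h
      rw [hsucc n, nu_cv_inv D.μ₂ D.ν (D.nuA n) h]
      have h1 : (fun x => D.nuA n x⁻¹) = D.nuA n := funext ih
      have h2 : (fun x => D.ν x⁻¹) = D.nuA 0 := funext hD.νi
      rw [h1, h2, hsg n 0, add_zero, hsucc n]
  have hint : ∀ n, ∫⁻ h, D.nuA n h ∂D.μ₂ = 1 := by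
    intro n
    induction n with
    | zero => exact hD.νint
    | succ n ih =>
      rw [hsucc n, nu_cv_int D.μ₂ D.ν (D.nuA n) hνm (hm n), ih, hD.νint, one_mul]
  obtain ⟨C, hC, hCb⟩ := nu_bdd P H D hD
  have hb : ∀ n h, D.nuA n h ≤ C := by
    intro n
    induction n with
    | zero => exact hCb
    | succ n ih =>
      intro h
      rw [hsucc n]
      unfold nu_cv
      calc ∫⁻ q, D.ν q * D.nuA n (q⁻¹ * h) ∂D.μ₂ ≤ ∫⁻ q, D.ν q * C ∂D.μ₂ :=
            lintegral_mono fun q => mul_le_mul_right (ih _) _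
        _ = C := by rw [lintegral_mul_const _ hνm, hD.νint, one_mul]
  obtain ⟨K, hK, hK0⟩ := hD.νK
  have hsupp : ∀ n, ∃ L : Set H, IsCompact L ∧ ∀ h, h ∉ L → D.nuA n h = 0 := by
    intro n
    induction n with
    | zero => exact ⟨K, hK, hK0⟩
    | succ n ih =>
      obtain ⟨L, hL, hL0⟩ := ih
      refine ⟨K * L, hK.mul hL, fun h hh => ?_⟩
      rw [hsucc n]
      unfold nu_cv
      have h1 : ∀ q, D.ν q * D.nuA n (q⁻¹ * h) = 0 := by
        intro q
        by_cases hq : q ∈ K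
        · by_cases hq2 : q⁻¹ * h ∈ L
          · exact absurd (Set.mem_mul.2 ⟨q, hq, q⁻¹ * h, hq2, by group⟩) hh
          · rw [hL0 _ hq2, mul_zero]
        · rw [hK0 _ hq, zero_mul]
      rw [lintegral_congr h1, lintegral_zero]
  refine ⟨fun n => hm _, fun n => hl _, ?_, fun n h => hsym _ h, fun n => hint _, ?_,
    ⟨C, hC, fun n h => hb _ h⟩, fun n => hsupp _⟩
  · intro n hn h
    have h1 := hpos (n - 1) h
    have h2 : n - 1 + 1 = n := by omega
    rw [h2] at h1
    exact h1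
  · intro n m hn hm' h
    have h1 := congrFun (hsg (n - 1) (m - 1)) h
    have h2 : n - 1 + (m - 1) + 1 = n + m - 1 := by omega
    rw [h2] at h1
    exact h1

end Pool.Agent.MPEF.U
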