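import Mathlib

set_option autoImplicit false

/-!
# MP_ef3f0f_gt, Theorem U, Part 0: the data (copy of `Z/Defs.lean` without the density hypothesis)

`P` is an abstract locally compact second countable group (`SL₃(ℝ)` in the application), `H` the
other factor, `Γ ≤ P × H` discrete and cocompact (NO density hypothesis). Everything is
`ℝ≥0∞`-valued (`lintegral`, `tsum` over `Γ`).
-/

namespace Pool.Agent.MPEF.U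

open MeasureTheory Topology
open scoped ENNReal Pointwise

/-! ## The data -/

/-- Data: the lattice `Γ`, the cutoff function `χ` (with `∑ χ (γ x) = 1`), Haar measures, and the
probability density `ν` on `H`. -/
structure Dat (P H : Type) [Group P] [Group H] [MeasurableSpace P] [MeasurableSpace H] where
  Γ : Subgroup (P × H)
  χ : P × H → ℝ≥0∞
  μ₁ : Measure P
  μ₂ : Measure H
  ν : H → ℝ≥0∞

section
variable {P H : Type} [Group P] [Group H] [MeasurableSpace P] [MeasurableSpace H]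

/-- The Haar measure of `P × H`. -/
noncomputable def Dat.μ (D : Dat P H) : Measure (P × H) := D.μ₁.prod D.μ₂

/-- The set where `ν > 0`. -/
def Dat.O (D : Dat P H) : Set H := {h | 0 < D.ν h}

/-- Auxiliary: `nuA n` is the `(n+1)`-fold convolution of `ν`. -/
noncomputable def Dat.nuA (D : Dat P H) : ℕ → H → ℝ≥0∞
  | 0 => D.ν
  | n + 1 => fun h => ∫⁻ q, D.ν q * D.nuA n (q⁻¹ * h) ∂D.μ₂

/-- `nu n` is the `n`-fold convolution of `ν` (`n ≥ 1`; junk value `ν` for `n = 0`). -/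
noncomputable def Dat.nu (D : Dat P H) (n : ℕ) : H → ℝ≥0∞ := D.nuA (n - 1)

/-- The tensor kernel `k ⊗ ν^(n)`. -/
noncomputable def Dat.tk (D : Dat P H) (k : P → ℝ≥0∞) (n : ℕ) : P × H → ℝ≥0∞ :=
  fun g => k g.1 * D.nu n g.2

/-- `∫_M f` for a `Γ`-invariant function `f`. -/
noncomputable def Dat.IM (D : Dat P H) (f : P × H → ℝ≥0∞) : ℝ≥0∞ :=
  ∫⁻ x, D.χ x * f x ∂D.μ

/-- `∑_u K(x⁻¹ u y) f(u)`. -/
noncomputable def Dat.S1 (D : Dat P H) (K : P × H → ℝ≥0∞) (x y : P × H) (f : D.Γ → ℝ≥0∞) :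
    ℝ≥0∞ :=
  ∑' u : D.Γ, K (x⁻¹ * (u : P × H) * y) * f u

/-- `N_K(x, y)`. -/
noncomputable def Dat.N (D : Dat P H) (K : P × H → ℝ≥0∞) (x y : P × H) : ℝ≥0∞ :=
  ∑' u : D.Γ, K (x⁻¹ * (u : P × H) * y)

/-- `∫_{M²} ∑_{u,v} K₁(x⁻¹uy) K₂(x⁻¹vy) Φ(u, v)`. -/
noncomputable def Dat.T2 (D : Dat P H) (K₁ K₂ : P × H → ℝ≥0∞) (Φ : D.Γ → D.Γ → ℝ≥0∞) : ℝ≥0∞ :=
  D.IM fun x => D.IM fun y => ∑' u : D.Γ, ∑' v : D.Γ,
    K₁ (x⁻¹ * (u : P × H) * y) * K₂ (x⁻¹ * (v : P × H) * y) * Φ u v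

/-- `∫_{M²} ∑_{u,v,w} K₁(x⁻¹uy) K₂(x⁻¹vy) K₃(x⁻¹wy) Φ(u, v, w)`. -/
noncomputable def Dat.T3 (D : Dat P H) (K₁ K₂ K₃ : P × H → ℝ≥0∞)
    (Φ : D.Γ → D.Γ → D.Γ → ℝ≥0∞) : ℝ≥0∞ :=
  D.IM fun x => D.IM fun y => ∑' u : D.Γ, ∑' v : D.Γ, ∑' w : D.Γ,
    K₁ (x⁻¹ * (u : P × H) * y) * K₂ (x⁻¹ * (v : P × H) * y) * K₃ (x⁻¹ * (w : P × H) * y) *
      Φ u v w

/-- `I_ψ^N(Φ) = ∫_M ∑_γ ψ(x₁⁻¹γ₁x₁) ν^(N)(x₂⁻¹γ₂x₂) Φ(γ)`. -/
noncomputable def Dat.II (D : Dat P H) (ψ : P → ℝ≥0∞) (N : ℕ) (Φ : D.Γ → ℝ≥0∞) : ℝ≥0∞ :=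
  D.IM fun x => ∑' γ : D.Γ, D.tk ψ N (x⁻¹ * (γ : P × H) * x) * Φ γ

/-- The axioms of the data. -/
structure Dat.Ok [TopologicalSpace P] [TopologicalSpace H] (D : Dat P H) : Prop where
  disc : ∀ K : Set (P × H), IsCompact K → {γ : P × H | γ ∈ D.Γ ∧ γ ∈ K}.Finite
  χm : Measurable D.χ
  χ1 : ∀ x, D.χ x ≤ 1
  χK : ∃ K : Set (P × H), IsCompact K ∧ ∀ x, x ∉ K → D.χ x = 0
  χs : ∀ x, ∑' γ : D.Γ, D.χ ((γ : P × H) * x) = 1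
  haar₁ : D.μ₁.IsHaarMeasure
  haar₂ : D.μ₂.IsHaarMeasure
  right₁ : D.μ₁.IsMulRightInvariant
  right₂ : D.μ₂.IsMulRightInvariant
  inv₁ : D.μ₁.IsInvInvariant
  inv₂ : D.μ₂.IsInvInvariant
  mass : ∫⁻ x, D.χ x ∂D.μ = 1
  νc : Continuous D.ν
  νt : ∀ h, D.ν h ≠ ∞
  νi : ∀ h, D.ν h⁻¹ = D.ν h
  ν1 : 0 < D.ν 1
  νint : ∫⁻ h, D.ν h ∂D.μ₂ = 1
  νK : ∃ K : Set H, IsCompact K ∧ ∀ h, h ∉ K → D.ν h = 0
  νgen : ∀ h : H, ∃ n : ℕ, h ∈ D.O ^ n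

/-- Absolute value as an extended nonnegative real. -/
noncomputable def ab (t : ℝ) : ℝ≥0∞ := ENNReal.ofReal |t|

end

end Pool.Agent.MPEF.U
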